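import Pool.Agent.R288.AS.Luroth

/-! MP_98e33a_an: for the Lüroth map the set of points whose asymptotic set has Hausdorff
dimension `1/2` has Hausdorff dimension `1`. -/

namespace Pool.Agent.Results.MP_98e33a_an.LurothHalf
open Set MeasureTheory Filter Topology Pool.Agent.R288.AS

/-- For the Lüroth map `L` (with an arbitrary value at the single point `1`), the level set
`Θ(L; 1/2)` has Hausdorff dimension `1`. -/
theorem result (L : ℝ → ℝ) (h0 : L 0 = 0)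
    (hL : ∀ n : ℕ, 1 ≤ n → ∀ x ∈ Ico (1 / ((n:ℝ) + 1)) (1 / (n:ℝ)),
      L x = n * (n + 1) * x - n) :
    dimH {x : ℝ | x ∈ Icc (0:ℝ) 1 ∧
      dimH {y : ℝ | y ∈ Icc (0:ℝ) 1 ∧
        Tendsto (fun n : ℕ => |L^[n] x - L^[n] y|) atTop (𝓝 0)} = 1/2} = 1 := by
  have hS : IsSys L lphi := luroth_isSys ⟨h0, hL⟩
  have h1 := dimH_half hS luroth_isMeas
  refine le_antisymm ?_ ?_
  · exact (dimH_mono (subset_univ _)).trans (le_of_eq Real.dimH_univ)
  · refine h1.symm.le.trans (dimH_mono ?_)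
    rintro x ⟨hx, hdx⟩
    refine ⟨⟨hx.1, hx.2.le⟩, ?_⟩
    have hle : dimH {y : ℝ | y ∈ Icc (0:ℝ) 1 ∧
        Tendsto (fun n : ℕ => |L^[n] x - L^[n] y|) atTop (𝓝 0)} ≤ dimH (AS L x ∪ {1}) := by
      refine dimH_mono ?_
      rintro y ⟨hy, hlim⟩
      by_cases hy1 : y = 1
      · right; exact hy1
      · left; exact ⟨⟨hy.1, lt_of_le_of_ne hy.2 hy1⟩, hlim⟩
    have hge : dimH (AS L x) ≤ dimH {y : ℝ | y ∈ Icc (0:ℝ) 1 ∧
        Tendsto (fun n : ℕ => |L^[n] x - L^[n] y|) atTop (𝓝 0)} := by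
      refine dimH_mono ?_
      rintro y ⟨hy, hlim⟩
      exact ⟨⟨hy.1, hy.2.le⟩, hlim⟩
    rw [dimH_union, dimH_singleton, hdx] at hle
    rw [hdx] at hge
    exact le_antisymm (hle.trans (by simp)) hge

end Pool.Agent.Results.MP_98e33a_an.LurothHalf
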